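import Pool.Agent.Helper85.IA.St

set_option autoImplicit false

namespace Pool.Agent.Helper6.IA85

open Finset Pool.Agent.Helper93.IA Pool.Agent.Helper85.IA

/-- UNI (union bound in a product measure). -/
theorem hUNI : StUNI := by
  intro ι _ _ κ _ w J _ Q _ h0 hs hlt
  by_contra hcon
  push Not at hcon
  have hpt : ∀ σ : (∀ i, κ i), (∏ i, w i (σ i)) * (1 : ℝ)
      ≤ (∏ i, w i (σ i)) * ∑ j, (if Q j σ then (1 : ℝ) else 0) := by
    intro σ
    by_cases hp : ∏ i, w i (σ i) = 0
    · rw [hp]; simp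
    · have hi : ∀ i, w i (σ i) ≠ 0 := fun i => (Finset.prod_ne_zero_iff.mp hp) i (mem_univ i)
      obtain ⟨j, hj⟩ := hcon σ hi
      have h1 : (1 : ℝ) ≤ ∑ j, (if Q j σ then (1 : ℝ) else 0) := by
        calc (1 : ℝ) = (if Q j σ then (1 : ℝ) else 0) := by rw [if_pos hj]
          _ ≤ ∑ j, (if Q j σ then (1 : ℝ) else 0) :=
            Finset.single_le_sum (f := fun j => if Q j σ then (1 : ℝ) else 0)
              (fun k _ => by split_ifs <;> norm_num) (mem_univ j)
      exact mul_le_mul_of_nonneg_left h1 (Finset.prod_nonneg fun i _ => h0 i _)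
  have hle : Ex w (fun _ => 1) ≤ Ex w (fun σ => ∑ j, (if Q j σ then (1 : ℝ) else 0)) := by
    unfold Ex
    exact Finset.sum_le_sum fun σ _ => hpt σ
  rw [Ex_one hs, Ex_sum] at hle
  exact absurd hlt (not_lt.mpr hle)

end Pool.Agent.Helper6.IA85
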